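import Pool.Agent.R602.CO.KSp

/-!
# The irrational numbers need not be a k-space in ZF

There is a countable transitive model of ZF in which the space of irrational numbers is not a
k-space. The definitions are in `Pool.Agent.R602.CO.Top`, the codes in `Pool.Agent.R602.CO.Base`
and `Pool.Agent.R602.CO.Model`, and transitive models of ZF in `Pool.Agent.W868.Defs`.
-/

namespace Pool.Agent.Results.MP_478558_lc.IrrNotKSpace

open Pool.Agent.W868 Pool.Agent.R602.CO

/-- There is a countable transitive model `M` of ZF, with the set `P` of all irrational numbers of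
`M`, such that `P` is not a k-space in `M`. -/
theorem result : ∃ M : Set ZFSet.{0}, M.Countable ∧ IsZF M ∧ ltQ ∈ M ∧
    ∃ P ∈ M, (∀ z, z ∈ P ↔ z ∈ M ∧ ∃ x : ℝ, Irrational x ∧ z = cut x) ∧ ¬ KSpaceIn M P := by
  obtain ⟨M, hM, r, h⟩ := exists_model
  obtain ⟨P, hP, hP'⟩ := irrationals_mem h.zf h.lt_mem
  exact ⟨M, hM, h.zf, h.lt_mem, P, hP, hP', not_kSpace h hP'⟩

end Pool.Agent.Results.MP_478558_lc.IrrNotKSpace
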